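import Pool.Agent.J4.H5.FP.Det
import Pool.Agent.J4.H26.Walk

/-!
# The proportion of the generated Tate characters
-/

set_option linter.unusedSectionVars false
set_option autoImplicit false

namespace Pool.Agent.J4.H5.FP

open Finset Pool.Agent.H916R2 Pool.Agent.H916T Pool.Agent.H916U Pool.Agent.H916Z Pool.Agent.H916Q
open Pool.Agent.TH540 (SqEven)

/-- the multiset of the entries of a tuple -/
def ent {m k : ℕ} (a : Fin k → ZMod m) : Multiset (ZMod m) := Finset.univ.val.map a

lemma ent_card {m k : ℕ} (a : Fin k → ZMod m) : Multiset.card (ent a) = k := by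
  unfold ent; simp

open scoped Classical in
/-- the value of an entry -/
noncomputable def fv (p m : ℕ) (F : Finset ℕ) (a : ZMod m) :
    (F → ZMod 2) × ZMod m × ((ZMod m)ˣ → ℤ) :=
  (fun n => if Supp (n : ℕ).primeFactors a then 1 else 0, a, fun t => W p ((t : ZMod m) * a))

lemma fv_neg {p m : ℕ} [NeZero m] (F : Finset ℕ) (a : ZMod m) : fv p m F (-a) = - fv p m F a := by
  unfold fv
  refine Prod.ext ?_ (Prod.ext ?_ ?_)
  · funext n
    have h1 : Supp (n : ℕ).primeFactors (-a) ↔ Supp (n : ℕ).primeFactors a := by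
      unfold Supp; rw [addOrderOf_neg]
    show (if Supp (n : ℕ).primeFactors (-a) then (1 : ZMod 2) else 0) =
      -(if Supp (n : ℕ).primeFactors a then (1 : ZMod 2) else 0)
    by_cases h : Supp (n : ℕ).primeFactors a
    · rw [if_pos h, if_pos (h1.mpr h)]; rfl
    · rw [if_neg h, if_neg (fun h' => h (h1.mp h'))]; rfl
  · rfl
  · funext t
    show W p ((t : ZMod m) * -a) = - W p ((t : ZMod m) * a)
    rw [mul_neg, W_neg]

open scoped Classical in
lemma fv_sum {p m : ℕ} [NeZero m] (F : Finset ℕ) (s : Multiset (ZMod m)) :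
    (s.map (fv p m F)).sum = (fun n : F => ((s.countP (Supp (n : ℕ).primeFactors) : ℕ) : ZMod 2),
      s.sum, fun t : (ZMod m)ˣ => (s.map fun a => W p ((t : ZMod m) * a)).sum) := by
  induction s using Multiset.induction_on with
  | empty =>
    simp only [Multiset.map_zero, Multiset.sum_zero, Multiset.countP_zero, Nat.cast_zero]
    rfl
  | cons a s ih =>
    rw [Multiset.map_cons, Multiset.sum_cons, ih]
    refine Prod.ext ?_ (Prod.ext ?_ ?_)
    · funext n
      show (if Supp (n : ℕ).primeFactors a then (1 : ZMod 2) else 0) +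
        ((s.countP (Supp (n : ℕ).primeFactors) : ℕ) : ZMod 2) =
        (((a ::ₘ s).countP (Supp (n : ℕ).primeFactors) : ℕ) : ZMod 2)
      rw [Multiset.countP_cons]
      push_cast
      rw [add_comm]
    · show a + s.sum = _
      rw [Multiset.sum_cons]
    · funext t
      show W p ((t : ZMod m) * a) + (s.map fun a => W p ((t : ZMod m) * a)).sum =
        ((a ::ₘ s).map fun a => W p ((t : ZMod m) * a)).sum
      rw [Multiset.map_cons, Multiset.sum_cons]

open scoped Classical in
/-- **The proportion of the generated Tate characters.** -/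
theorem count_le {p m N : ℕ} (hp : p.Prime) (hm : 0 < m) (hpm : p.Coprime m) (hN : 0 < N)
    (F : Finset ℕ)
    (hF : ∀ n : ℕ, Squarefree n → ¬ 2 ∣ n → 1 < n → n ∣ m → ¬ H916Y.Dead p n.primeFactors →
      ¬ JacRel p m n → ¬ SqEven p m n → n ∈ F) :
    Nat.card {a : Fin (2 * N) → ZMod m // IsTate p m (ent a)} ≤
      2 ^ F.card * Nat.card {a : Fin (2 * N) → ZMod m // IsTate p m (ent a) ∧
        ∃ K : ℕ, 0 < K ∧ p.Coprime K ∧ H916T.Generated (K * m) (ZBase p (K * m))
          ((ent a).map (iota K : ZMod m → ZMod (K * m)))} := by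
  have hz : NeZero m := ⟨hm.ne'⟩
  let α := {a : ZMod m // a ≠ 0}
  let f : α → (F → ZMod 2) × ZMod m × ((ZMod m)ˣ → ℤ) := fun a => fv p m F a.1
  let ν : α → α := fun a => ⟨-a.1, neg_ne_zero.mpr a.2⟩
  have hν : ∀ a, ν (ν a) = a := fun a => Subtype.ext (neg_neg a.1)
  have hf : ∀ a, f (ν a) = - f a := fun a => fv_neg F a.1
  let Fσ : (F → ZMod 2) × ZMod m × ((ZMod m)ˣ → ℤ) → Finset (Fin (2 * N) → α) := fun σ =>
    univ.filter fun a : Fin (2 * N) → α => ∑ j, f (a j) = σ
  have hw : ∀ σ, (Fσ σ).card ≤ (Fσ 0).card := fun σ => by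
    simp only [Fσ]
    convert J4.H26.walk f ν hν hf N σ
  have hsum : ∀ a : Fin (2 * N) → α, ∑ j, f (a j) =
      ((ent fun j => (a j).1).map (fv p m F)).sum := by
    intro a
    unfold ent
    rw [Multiset.map_map]
    rfl
  let H : Finset (Fin (2 * N) → α) := univ.filter fun a => IsTate p m (ent fun j => (a j).1)
  have hH : H ⊆ (univ : Finset (F → ZMod 2)).biUnion fun τ => Fσ (τ, 0) := by
    intro a ha
    have ha' : IsTate p m (ent fun j => (a j).1) := (mem_filter.mp ha).2
    rw [mem_biUnion]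
    refine ⟨fun n : F => (((ent fun j => (a j).1).countP (Supp (n : ℕ).primeFactors) : ℕ) :
      ZMod 2), mem_univ _, ?_⟩
    simp only [Fσ, mem_filter, mem_univ, true_and]
    rw [hsum, fv_sum]
    refine Prod.ext rfl (Prod.ext ?_ ?_)
    · exact ha'.2.2.1
    · funext t
      exact ha'.W_sum hpm t
  have hcF : (univ : Finset (F → ZMod 2)).card = 2 ^ F.card := by
    rw [card_univ, Fintype.card_fun, ZMod.card, Fintype.card_coe]
  have h1 : H.card ≤ 2 ^ F.card * (Fσ 0).card := by
    refine (card_le_card hH).trans ?_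
    refine card_biUnion_le.trans ?_
    calc ∑ τ : F → ZMod 2, (Fσ (τ, 0)).card ≤ ∑ _τ : F → ZMod 2, (Fσ 0).card :=
          sum_le_sum fun τ _ => hw _
      _ = 2 ^ F.card * (Fσ 0).card := by rw [sum_const, smul_eq_mul, hcF]
  have h2 : Nat.card {a : Fin (2 * N) → ZMod m // IsTate p m (ent a)} ≤ H.card := by
    have hinj : ∀ a : {a : Fin (2 * N) → ZMod m // IsTate p m (ent a)}, ∀ j, a.1 j ≠ 0 := by
      intro a j h0
      apply a.2.1
      rw [← h0]
      exact Multiset.mem_map_of_mem _ (mem_univ j)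
    let g : {a : Fin (2 * N) → ZMod m // IsTate p m (ent a)} → H := fun a =>
      ⟨fun j => ⟨a.1 j, hinj a j⟩, mem_filter.mpr ⟨mem_univ _, a.2⟩⟩
    have hg : Function.Injective g := by
      intro a b h
      apply Subtype.ext
      funext j
      have h3 := congrArg (fun x : H => (x.1 j).1) h
      exact h3
    have := Nat.card_le_card_of_injective g hg
    rwa [Nat.card_eq_fintype_card (α := H), Fintype.card_coe] at this
  have h3 : (Fσ 0).card ≤ Nat.card {a : Fin (2 * N) → ZMod m // IsTate p m (ent a) ∧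
        ∃ K : ℕ, 0 < K ∧ p.Coprime K ∧ H916T.Generated (K * m) (ZBase p (K * m))
          ((ent a).map (iota K : ZMod m → ZMod (K * m)))} := by
    have hgen : ∀ a ∈ Fσ 0, IsTate p m (ent fun j => (a j).1) ∧
        ∃ K : ℕ, 0 < K ∧ p.Coprime K ∧ H916T.Generated (K * m) (ZBase p (K * m))
          ((ent fun j => (a j).1).map (iota K : ZMod m → ZMod (K * m))) := by
      intro a ha
      have h4 : ∑ j, f (a j) = 0 := (mem_filter.mp ha).2
      rw [hsum, fv_sum] at h4
      have h5 := congrArg Prod.fst h4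
      have h6 := congrArg (fun x => x.2.1) h4
      have h7 := congrArg (fun x => x.2.2) h4
      have h0 : (0 : ZMod m) ∉ ent fun j => (a j).1 := by
        unfold ent
        rw [Multiset.mem_map]
        rintro ⟨j, _, hj⟩
        exact (a j).2 hj
      have hcard : Multiset.card (ent fun j => (a j).1) = 2 * N := ent_card _
      have hT : IsTate p m (ent fun j => (a j).1) :=
        isTate_of_W hpm h0 (by rw [hcard]; simp) h6 (fun t => congrFun h7 t)
      have hne : (ent fun j => (a j).1) ≠ 0 := by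
        intro h8
        rw [h8] at hcard
        simp at hcard
        omega
      refine ⟨hT, ?_⟩
      obtain ⟨K, hK, hpK, hgen⟩ := generated_of_free hp hm hpm hT hne (by
        intro n e1 e2 e3 e4 e5 e6 e7
        have e8 := hF n e1 e2 e3 e4 e5 e6 e7
        have e9 := congrFun h5 ⟨n, e8⟩
        exact (ZMod.natCast_eq_zero_iff_even).mp e9)
      exact ⟨K, hK, hpK, hgen (K * m) rfl⟩
    let g : Fσ 0 → {a : Fin (2 * N) → ZMod m // IsTate p m (ent a) ∧
        ∃ K : ℕ, 0 < K ∧ p.Coprime K ∧ H916T.Generated (K * m) (ZBase p (K * m))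
          ((ent a).map (iota K : ZMod m → ZMod (K * m)))} :=
      fun a => ⟨fun j => (a.1 j).1, hgen a.1 a.2⟩
    have hg : Function.Injective g := by
      intro a b h
      apply Subtype.ext
      funext j
      apply Subtype.ext
      exact congrFun (congrArg Subtype.val h) j
    have := Nat.card_le_card_of_injective g hg
    rwa [Nat.card_eq_fintype_card (α := Fσ 0), Fintype.card_coe] at this
  calc _ ≤ H.card := h2
    _ ≤ 2 ^ F.card * (Fσ 0).card := h1
    _ ≤ _ := Nat.mul_le_mul le_rfl h3

end Pool.Agent.J4.H5.FP
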