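import Pool.Agent.J4.H5.FP.Par

/-!
# Tate characters with even parities at the free supports are generated
-/

set_option linter.unusedSectionVars false
set_option autoImplicit false

namespace Pool.Agent.J4.H5.FP

open Finset Pool.Agent.H916R2 Pool.Agent.H916T Pool.Agent.H916U Pool.Agent.H916Z Pool.Agent.H916Q
open Pool.Agent.TH540 (SqEven even_sq parity_fix fix_null null_even fix_link fix_neg_one el_supp
  order_elem ne_zero_of_order)

variable {p : ℕ}

lemma dead_of_dvd {n n' : ℕ} (hn : Squarefree n) (hn' : Squarefree n') (h : n ∣ n')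
    (hd : H916Y.Dead p n'.primeFactors) : H916Y.Dead p n.primeFactors := by
  obtain ⟨j, hj⟩ := hd
  refine ⟨j, ?_⟩
  rw [Nat.prod_primeFactors_of_squarefree hn]
  rw [Nat.prod_primeFactors_of_squarefree hn'] at hj
  exact h.trans hj

open scoped Classical in
theorem even_all {m : ℕ} (hm : 0 < m) (hpm : p.Coprime m) {s : Multiset (ZMod m)}
    (hs : Rel0 p s)
    (hfree : ∀ n : ℕ, Squarefree n → ¬ 2 ∣ n → 1 < n → n ∣ m → ¬ H916Y.Dead p n.primeFactors →
      ¬ JacRel p m n → ¬ SqEven p m n → Even (s.countP (Supp n.primeFactors))) :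
    ∀ n : ℕ, Squarefree n → ¬ 2 ∣ n → 1 < n → n ∣ m → ¬ H916Y.Dead p n.primeFactors →
      Even (s.countP (Supp n.primeFactors)) := by
  have hz : NeZero m := ⟨hm.ne'⟩
  have main : ∀ k n : ℕ, m - n = k → Squarefree n → ¬ 2 ∣ n → 1 < n → n ∣ m →
      ¬ H916Y.Dead p n.primeFactors → Even (s.countP (Supp n.primeFactors)) := by
    intro k
    induction k using Nat.strong_induction_on with
    | _ k ih =>
    intro n hk hn hn2 hn1 hnm hdead
    have hnle : n ≤ m := Nat.le_of_dvd hm hnm
    have hup : ∀ n' : ℕ, Squarefree n' → ¬ 2 ∣ n' → n' ∣ m → n ∣ n' → n' ≠ n →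
        Even (s.countP (Supp n'.primeFactors)) := by
      intro n' hn' hn2' hnm' hdvd hne
      have h1 : n ≤ n' := Nat.le_of_dvd (Nat.pos_of_dvd_of_pos hnm' hm) hdvd
      have h2 : n' ≤ m := Nat.le_of_dvd hm hnm'
      exact ih (m - n') (by omega) n' rfl hn' hn2' (by omega) hnm'
        (fun h => hdead (dead_of_dvd hn hn' hdvd h))
    by_cases hJ : JacRel p m n
    · obtain ⟨d, hdn, hd4, hp1, h4, hq⟩ := hJ
      by_cases h4m : 4 ∣ m
      · refine jac_step hpm hs hn hn2 hnm hdn hd4 hp1 (fun _ => h4 h4m) ?_ hup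
        intro q hqp hq2 hqm hqd
        exact hq q hqp (hqp.odd_of_ne_two hq2) hqm hqd
      · obtain ⟨k, n0, hn0, hk', hkn, hn02⟩ := H916Y.exists_odd_level hm h4m
        obtain ⟨x', hx', hS⟩ := H916Y.oddize_rel hn0 hk' hkn hn02 hpm hs
        have hz0 : NeZero n0 := ⟨hn0.ne'⟩
        have hnn0 : n ∣ n0 := by
          rcases hk' with rfl | rfl
          · rw [one_mul] at hkn
            rw [hkn]; exact hnm
          · have h5 : Nat.Coprime n 2 := by
              rw [Nat.coprime_comm]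
              exact (Nat.prime_two.coprime_iff_not_dvd).mpr hn2
            rw [← hkn] at hnm
            exact h5.dvd_of_dvd_mul_left hnm
        have hn0m : n0 ∣ m := Dvd.intro_left k hkn
        have h2pf : ∀ n' : ℕ, ¬ 2 ∣ n' → 2 ∉ n'.primeFactors := fun n' h h' =>
          h (Nat.dvd_of_mem_primeFactors h')
        rw [← hS _ (h2pf n hn2)]
        refine jac_step (Nat.Coprime.coprime_dvd_right hn0m hpm) hx' hn hn2 hnn0 hdn hd4 hp1
          (fun h => absurd h hn02) ?_ ?_
        · intro q hqp hq2 hqm hqd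
          exact hq q hqp (hqp.odd_of_ne_two hq2) (hqm.trans hn0m) hqd
        · intro n' hn' hn2' hnm' hdvd hne
          rw [hS _ (h2pf n' hn2')]
          exact hup n' hn' hn2' (hnm'.trans hn0m) hdvd hne
    by_cases hSq : SqEven p m n
    · have hprod := Nat.prod_primeFactors_of_squarefree hn
      refine even_sq hm hpm hs ?_ ?_ ?_ hdead ?_
      · obtain ⟨q, hq, hqn⟩ := Nat.exists_prime_and_dvd hn1.ne'
        exact ⟨q, Nat.mem_primeFactors.mpr ⟨hq, hqn, by omega⟩⟩
      · exact fun h => hn2 (Nat.dvd_of_mem_primeFactors h)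
      · exact Nat.primeFactors_mono hnm hm.ne'
      · rw [hprod]; exact hSq
    · exact hfree n hn hn2 hn1 hnm hdead hJ hSq
  exact fun n => main (m - n) n rfl

open scoped Classical in
/-- **Even parities at the free supports.** -/
theorem generated_of_free {m : ℕ} (hp : p.Prime) (hm : 0 < m) (hpm : p.Coprime m)
    {s : Multiset (ZMod m)} (hs : IsTate p m s) (hne : s ≠ 0)
    (hfree : ∀ n : ℕ, Squarefree n → ¬ 2 ∣ n → 1 < n → n ∣ m → ¬ H916Y.Dead p n.primeFactors →
      ¬ JacRel p m n → ¬ SqEven p m n → Even (s.countP (Supp n.primeFactors))) :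
    ∃ N : ℕ, 0 < N ∧ p.Coprime N ∧ ∀ M : ℕ, N * m = M →
      H916T.Generated M (ZBase p M) (s.map (iota N : ZMod m → ZMod M)) := by
  have hz : NeZero m := ⟨hm.ne'⟩
  have hrel : Rel0 p s := fun t => hs.W_sum hpm t
  have hall := even_all hm hpm hrel hfree
  have hprodpf : ∀ S : Finset ℕ, S ⊆ m.primeFactors → (∏ q ∈ S, q).primeFactors = S ∧
      Squarefree (∏ q ∈ S, q) ∧ (∏ q ∈ S, q) ∣ m := by
    intro S hS
    have hpr : ∀ q ∈ S, q.Prime := fun q hq => Nat.prime_of_mem_primeFactors (hS hq)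
    refine ⟨Nat.primeFactors_prod hpr, ?_, ?_⟩
    · refine Finset.squarefree_prod_of_pairwise_isCoprime (fun q hq r hr hqr => ?_)
        (fun q hq => (hpr q hq).squarefree)
      show IsRelPrime q r
      rw [← Nat.coprime_iff_isRelPrime]
      exact (Nat.coprime_primes (hpr q hq) (hpr r hr)).mpr hqr
    · refine dvd_trans (Finset.prod_dvd_prod_of_subset _ _ _ hS) ?_
      exact Nat.prod_primeFactors_dvd m
  refine parity_fix hp hm one_pos (one_mul m) hpm hs hne
    (fun S => S.Nonempty ∧ 2 ∉ S ∧ S ⊆ m.primeFactors ∧ ¬ H916Y.Dead p S) ?_ ?_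
  · rintro S ⟨h1, h2, h3, h4⟩
    obtain ⟨e1, e2, e3⟩ := hprodpf S h3
    have h5 := hall (∏ q ∈ S, q) e2 ?_ ?_ e3 (by rw [e1]; exact h4)
    · rw [e1] at h5; exact h5
    · intro h
      have h6 : 2 ∈ (∏ q ∈ S, q).primeFactors :=
        Nat.mem_primeFactors.mpr ⟨Nat.prime_two, h, e2.ne_zero⟩
      rw [e1] at h6
      exact h2 h6
    · obtain ⟨q, hq⟩ := h1
      have h6 : q ∣ ∏ q ∈ S, q := Finset.dvd_prod_of_mem _ hq
      have h7 := (Nat.prime_of_mem_primeFactors (h3 hq)).one_lt
      have h8 := Nat.le_of_dvd (Nat.pos_of_ne_zero e2.ne_zero) h6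
      omega
  intro a ha0 ham hE
  by_cases h2 : 2 ∣ addOrderOf a
  · obtain ⟨d, hd⟩ := h2.trans (addOrderOf_dvd_level a)
    exact fix_null (null_even hd.symm ha0 h2)
  · set S := (addOrderOf a).primeFactors with hS
    have hpos := addOrderOf_pos a
    have hne' : S.Nonempty := by
      rw [Finset.nonempty_iff_ne_empty]
      intro h
      rw [hS, Nat.primeFactors_eq_empty] at h
      rcases h with h | h
      · exact hpos.ne' h
      · rw [AddMonoid.addOrderOf_eq_one_iff] at h
        exact ha0 h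
    have h2S : 2 ∉ S := fun h => h2 (Nat.dvd_of_mem_primeFactors h)
    have hSm : S ⊆ m.primeFactors := Nat.primeFactors_mono ham hm.ne'
    obtain ⟨e1, e2, e3⟩ := hprodpf S hSm
    have hdead : H916Y.Dead p S := by
      by_contra hnd
      exact hE ⟨hne', h2S, hSm, hnd⟩
    set n := ∏ q ∈ S, q with hn
    have hn1 : 1 < n := by
      obtain ⟨q, hq⟩ := hne'
      have h6 : q ∣ n := Finset.dvd_prod_of_mem _ hq
      have h7 := (Nat.prime_of_mem_primeFactors (hSm hq)).one_lt
      have h8 := Nat.le_of_dvd (Nat.pos_of_ne_zero e2.ne_zero) h6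
      omega
    have hxo := order_elem (M := m) e3
    have hx0 := ne_zero_of_order hxo hn1.ne'
    have hax := el_supp (p := p) ha0 hx0 (by rw [hxo, e1])
    obtain ⟨j, hj⟩ := hdead
    refine fix_link hax (fix_null (fix_neg_one (k := j) hxo hn1.ne' ?_))
    have h1 : ((p ^ j + 1 : ℕ) : ZMod n) = 0 := (ZMod.natCast_eq_zero_iff _ _).mpr hj
    push_cast at h1
    linear_combination h1

end Pool.Agent.J4.H5.FP
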