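import Pool.Agent.TH540.MainH

/-!
# Linear relations between the parities of the supports of a Tate character

Every quadratic character with conductor a product of odd primes gives a linear relation between the
parities of the numbers of elements with given support, as soon as it is odd and trivial on `p` (and
on two, if four divides the level).
-/

set_option linter.unusedSectionVars false
set_option autoImplicit false

namespace Pool.Agent.J4.H5.FP

open Finset Pool.Agent.H916R2 Pool.Agent.H916T Pool.Agent.H916U Pool.Agent.H916Z Pool.Agent.H916Q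
open Pool.Agent.H916Y (om om_mul om_sg om_par om_ind om_nn om_vec om_inv FS mem_FS prod_FS)

/-- `(j - 1) / 2` -/
def hf {m : ℕ} (j : PF m) : ℤ := (((j : ℕ) - 1) / 2 : ℕ)

lemma two_hf {m : ℕ} {j : PF m} (hj : (j : ℕ) ≠ 2) : 2 * hf j = ((j : ℕ) : ℤ) - 1 := by
  have hp : (j : ℕ).Prime := Fact.out
  have h1 := hp.eq_two_or_odd
  have h2 := hp.one_lt
  unfold hf
  omega

lemma hf_par {m : ℕ} {j : PF m} (hj : (j : ℕ) ≠ 2) : 2 ∣ hf j ↔ (j : ℕ) % 4 = 1 := by
  have hp : (j : ℕ).Prime := Fact.out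
  have h1 := hp.eq_two_or_odd
  have h2 := hp.one_lt
  unfold hf
  omega

/-- the family of functions attached to one function -/
noncomputable def fam {m : ℕ} (Q0 R : Finset (PF m)) (ω : (∀ i, GG m i) → ℤ) :
    Finset (PF m) → (∀ i, GG m i) → ℤ := fun U =>
  if Q0 ⊆ U ∧ U ⊆ Q0 ∪ R then fun x => (∏ j ∈ R \ U, hf j) * ω x else fun _ => 0

/-- the conditions on the function -/
structure Gen (m : ℕ) (Q0 R : Finset (PF m)) (ω : (∀ i, GG m i) → ℤ) : Prop where
  two : ∀ j ∈ R, (j : ℕ) ≠ 2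
  disj : ∀ j ∈ R, j ∉ Q0
  ne : Q0.Nonempty
  ind : ∀ k, k ∉ Q0 → Ind k ω
  odd : ∀ x, ω (sg m * x) = - ω x
  nn : ∀ i ∈ Q0, ∀ x, NN i ω x = 0
  inv : ∀ j, j ∉ Q0 → j ∉ R → ∀ x, ω (tt m j * x) = ω x
  neg : ∀ j ∈ R, ∀ x, ω (tt m j * x) = - ω x
  par : ∀ x, ¬ 2 ∣ ω x

variable {m : ℕ} {Q0 R : Finset (PF m)} {ω : (∀ i, GG m i) → ℤ}

theorem Gen.dist (h : Gen m Q0 R ω) : Dist (sg m) (tt m) (fam Q0 R ω) where
  ind := by
    intro U k hk
    unfold fam
    by_cases hU : Q0 ⊆ U ∧ U ⊆ Q0 ∪ R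
    · rw [if_pos hU]
      intro y x
      show _ * ω _ = _ * ω x
      rw [h.ind k (fun h' => hk (hU.1 h')) y x]
    · rw [if_neg hU]
      exact fun _ _ => rfl
  odd := by
    intro U x
    unfold fam
    by_cases hU : Q0 ⊆ U ∧ U ⊆ Q0 ∪ R
    · rw [if_pos hU]
      show _ * ω _ = -(_ * ω x)
      rw [h.odd x, mul_neg]
    · rw [if_neg hU]; simp
  rel := by
    intro U j hj
    funext x
    by_cases hQ : Q0 ⊆ U
    · by_cases hjQ : j ∈ Q0
      · have h1 : ¬ (Q0 ⊆ U.erase j ∧ U.erase j ⊆ Q0 ∪ R) := fun h' => notMem_erase j U (h'.1 hjQ)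
        have h2 : DD (tt m j) (fam Q0 R ω (U.erase j)) x = 0 := by
          unfold fam
          rw [if_neg h1]; simp [DD]
        rw [h2]
        unfold fam
        by_cases hU : Q0 ⊆ U ∧ U ⊆ Q0 ∪ R
        · rw [if_pos hU]
          have h3 := h.nn j hjQ x
          unfold NN at h3 ⊢
          rw [← mul_sum, h3, mul_zero]
        · rw [if_neg hU]; simp [NN]
      · have hQe : Q0 ⊆ U.erase j := fun y hy => mem_erase.mpr ⟨fun h' => hjQ (h' ▸ hy), hQ hy⟩
        by_cases hU : U ⊆ Q0 ∪ R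
        · have hjR : j ∈ R := by
            rcases mem_union.mp (hU hj) with h' | h'
            · exact absurd h' hjQ
            · exact h'
          have h1 : Q0 ⊆ U.erase j ∧ U.erase j ⊆ Q0 ∪ R := ⟨hQe, (erase_subset _ _).trans hU⟩
          unfold fam
          rw [if_pos h1, if_pos ⟨hQ, hU⟩]
          unfold DD NN
          have h2 : ∀ y : GG m j, ω (Pi.mulSingle j y * x) = ω x := fun y => h.ind j hjQ y x
          have h5 : R \ U.erase j = insert j (R \ U) := by
            ext y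
            simp only [mem_sdiff, mem_erase, mem_insert, not_and]
            constructor
            · rintro ⟨hy, h'⟩
              by_cases hyj : y = j
              · exact Or.inl hyj
              · exact Or.inr ⟨hy, h' hyj⟩
            · rintro (rfl | ⟨hy, h'⟩)
              · exact ⟨hjR, fun h' => absurd rfl h'⟩
              · exact ⟨hy, fun _ => h'⟩
          have h6 : j ∉ R \ U := fun h' => (mem_sdiff.mp h').2 hj
          show ∑ y : GG m j, (∏ j ∈ R \ U, hf j) * ω (Pi.mulSingle j y * x) =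
            (∏ j ∈ R \ U.erase j, hf j) * ω x - (∏ j ∈ R \ U.erase j, hf j) * ω (tt m j * x)
          rw [sum_congr rfl fun y _ => by rw [h2 y], h.neg j hjR, sum_const, card_univ,
            nsmul_eq_mul, h5, prod_insert h6]
          have hjp : (j : ℕ).Prime := Fact.out
          have h3 : Fintype.card (GG m j) = (j : ℕ) - 1 := by
            rw [ZMod.card_units_eq_totient, Nat.totient_prime hjp]
          have h4 : ((Fintype.card (GG m j) : ℕ) : ℤ) = 2 * hf j := by
            rw [h3, two_hf (h.two j hjR), Nat.cast_sub hjp.one_lt.le]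
            simp
          rw [h4]
          ring
        · have h1 : ¬ (Q0 ⊆ U ∧ U ⊆ Q0 ∪ R) := fun h' => hU h'.2
          have h2 : NN j (fam Q0 R ω U) x = 0 := by
            unfold fam
            rw [if_neg h1]; simp [NN]
          rw [h2]
          unfold fam
          by_cases h3 : Q0 ⊆ U.erase j ∧ U.erase j ⊆ Q0 ∪ R
          · rw [if_pos h3]
            have h4 : j ∉ R := by
              intro h'
              apply hU
              intro y hy
              by_cases hyj : y = j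
              · rw [hyj]; exact mem_union_right _ h'
              · exact h3.2 (mem_erase.mpr ⟨hyj, hy⟩)
            show 0 = (∏ j ∈ R \ U.erase j, hf j) * ω x -
              (∏ j ∈ R \ U.erase j, hf j) * ω (tt m j * x)
            rw [h.inv j hjQ h4]; ring
          · rw [if_neg h3]; simp [DD]
    · have h1 : ¬ (Q0 ⊆ U ∧ U ⊆ Q0 ∪ R) := fun h' => hQ h'.1
      have h2 : ¬ (Q0 ⊆ U.erase j ∧ U.erase j ⊆ Q0 ∪ R) :=
        fun h' => hQ (h'.1.trans (erase_subset _ _))
      unfold fam
      rw [if_neg h1, if_neg h2]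
      simp [NN, DD]
  zero := by
    intro x
    unfold fam
    have h1 : ¬ (Q0 ⊆ ∅ ∧ (∅ : Finset (PF m)) ⊆ Q0 ∪ R) := by
      rintro ⟨h', _⟩
      obtain ⟨y, hy⟩ := h.ne
      exact absurd (h' hy) (by simp)
    rw [if_neg h1]

open scoped Classical in
/-- **Evenness from a distribution.** -/
theorem even_of_dist [NeZero m] {p : ℕ} (hp : p.Coprime m) {s : Multiset (ZMod m)} (hs : Rel0 p s)
    {W : Finset (PF m)} {φ : Finset (PF m) → (∀ i, GG m i) → ℤ} (hφ : Dist (sg m) (tt m) φ)
    (P : Finset (PF m) → Prop) (hP : ∀ V x, 2 ∣ φ V x ↔ ¬ P V)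
    (h3 : ∀ V, ¬ V ⊆ W → φ V = fun _ => 0) (hW : ∀ i ∈ W, (i : ℕ) ≠ 2)
    (hinv : ∀ U x, φ U (vec m p * x) = φ U x) :
    Even (s.countP fun a => P (H916Q.TT m (addOrderOf a))) := by
  obtain ⟨k, hk, hk0⟩ := H916D.torsion_sum hp (H916Y.Psi_od' hφ) (H916Y.Psi_inv hφ hp hinv) s hs
  have hsum : (s.map (Psi φ)).sum = 0 := by
    rw [nsmul_eq_mul] at hk0
    rcases mul_eq_zero.mp hk0 with h | h
    · exact absurd (by exact_mod_cast h) hk.ne'
    · exact h
  -- divide by the power of two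
  obtain ⟨v, m', hm', hmm⟩ := Nat.exists_eq_two_pow_mul_odd (NeZero.ne m)
  have h2v : (2 : ℤ) ^ v ≠ 0 := pow_ne_zero _ two_ne_zero
  have key : ∀ a : ZMod m, ∃ r : ℤ, Psi φ a = 2 ^ v * r ∧
      (2 ∣ r ↔ ¬ P (H916Q.TT m (addOrderOf a))) := by
    intro a
    by_cases ha : H916Q.TT m (addOrderOf a) ⊆ W
    · have h2n : ¬ 2 ∣ addOrderOf a := by
        intro h2
        have h2m : 2 ∣ m := h2.trans (addOrderOf_dvd_level a)
        have h3 : (⟨2, Nat.mem_primeFactors.mpr ⟨Nat.prime_two, h2m, NeZero.ne m⟩⟩ : PF m) ∈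
            H916Q.TT m (addOrderOf a) := mem_TT.mpr h2
        exact hW _ (ha h3) rfl
      have hdvd := addOrderOf_dvd_level a
      have hg : Nat.gcd a.val m = m / addOrderOf a := by
        rw [H916Q.addOrderOf_eq, Nat.div_div_self (Nat.gcd_dvd_right _ _) (NeZero.ne m)]
      have hcop : (addOrderOf a).Coprime (2 ^ v) := by
        apply Nat.Coprime.pow_right
        rw [Nat.coprime_comm, Nat.prime_two.coprime_iff_not_dvd]
        exact h2n
      have hdm' : addOrderOf a ∣ m' := by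
        have h5 : addOrderOf a ∣ 2 ^ v * m' := hmm ▸ hdvd
        exact hcop.dvd_of_dvd_mul_left h5
      obtain ⟨e, he⟩ := hdm'
      have hpos := addOrderOf_pos a
      have hge : Nat.gcd a.val m = 2 ^ v * e := by
        have h5 : m = addOrderOf a * (2 ^ v * e) := by
          calc m = 2 ^ v * m' := hmm
            _ = 2 ^ v * (addOrderOf a * e) := congrArg (fun z => 2 ^ v * z) he
            _ = addOrderOf a * (2 ^ v * e) := by ring
        rw [hg]
        exact Nat.div_eq_of_eq_mul_right hpos h5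
      have heodd : ¬ 2 ∣ e := by
        intro h
        have h5 : 2 ∣ m' := he ▸ (h.mul_left _)
        exact (Nat.not_even_iff_odd.mpr hm') (even_iff_two_dvd.mpr h5)
      have heodd' : ¬ (2 : ℤ) ∣ (e : ℤ) := fun h => heodd (by exact_mod_cast h)
      have hprod : ¬ (2 : ℤ) ∣ ∏ i ∈ H916Q.TT m (m / Nat.gcd a.val m), ((i : ℕ) : ℤ) := by
        intro h
        rw [Prime.dvd_finsetProd_iff Int.prime_two] at h
        obtain ⟨i, hi, hi2⟩ := h
        rw [← H916Q.addOrderOf_eq] at hi
        have h6 : 2 ∣ (i : ℕ) := by exact_mod_cast hi2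
        have hip : (i : ℕ).Prime := Fact.out
        have h7 := (Nat.prime_dvd_prime_iff_eq Nat.prime_two hip).mp h6
        rw [mem_TT, ← h7] at hi
        exact h2n hi
      refine ⟨(e : ℤ) * (∏ i ∈ H916Q.TT m (m / Nat.gcd a.val m), ((i : ℕ) : ℤ)) *
        φ (H916Q.TT m (m / Nat.gcd a.val m)) (vec m (a.val / Nat.gcd a.val m)), ?_, ?_⟩
      · unfold Psi PsiN
        have h9 : ((Nat.gcd a.val m : ℕ) : ℤ) = 2 ^ v * (e : ℤ) := by
          rw [hge]; push_cast; rfl
        rw [h9]; ring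
      · rw [mul_assoc, two_dvd_mul_iff heodd', two_dvd_mul_iff hprod,
          ← H916Q.addOrderOf_eq]
        exact hP _ _
    · refine ⟨0, ?_, ?_⟩
      · unfold Psi PsiN
        rw [← H916Q.addOrderOf_eq, h3 _ ha]; simp
      · have h4 := hP (H916Q.TT m (addOrderOf a)) 1
        rw [h3 _ ha] at h4
        simpa using h4
  choose r hr1 hr2 using key
  refine countP_parity _ r hr2 s ?_
  have h1 : (s.map (Psi φ)).sum = 2 ^ v * (s.map r).sum := by
    rw [← Multiset.sum_map_mul_left]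
    congr 1
    exact Multiset.map_congr rfl fun a _ => hr1 a
  rw [h1] at hsum
  exact (mul_eq_zero.mp hsum).resolve_left h2v

open scoped Classical in
/-- **The relation for one function.** -/
theorem Gen.even [NeZero m] {p : ℕ} (hp : p.Coprime m) {s : Multiset (ZMod m)} (hs : Rel0 p s)
    (h : Gen m Q0 R ω) (h2 : ∀ i ∈ Q0, (i : ℕ) ≠ 2) (hpi : ∀ x, ω (vec m p * x) = ω x) :
    Even (s.countP fun a => Q0 ⊆ H916Q.TT m (addOrderOf a) ∧
      H916Q.TT m (addOrderOf a) ⊆ Q0 ∪ R ∧
      ∀ j ∈ R, (j : ℕ) % 4 = 1 → j ∈ H916Q.TT m (addOrderOf a)) := by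
  have key := even_of_dist (W := Q0 ∪ R) hp hs h.dist
    (fun V => Q0 ⊆ V ∧ V ⊆ Q0 ∪ R ∧ ∀ j ∈ R, (j : ℕ) % 4 = 1 → j ∈ V) ?_ ?_ ?_ ?_
  · convert key
  · intro V x
    unfold fam
    by_cases hV : Q0 ⊆ V ∧ V ⊆ Q0 ∪ R
    · rw [if_pos hV]
      show 2 ∣ (∏ j ∈ R \ V, hf j) * ω x ↔ _
      rw [Prime.dvd_mul Int.prime_two, Prime.dvd_finsetProd_iff Int.prime_two]
      have h5 : ¬ (2 ∣ ω x) := h.par x
      constructor
      · rintro (⟨j, hj, hj2⟩ | h6)
        · intro hcon
          have hjR := (mem_sdiff.mp hj).1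
          exact (mem_sdiff.mp hj).2 (hcon.2.2 j hjR ((hf_par (h.two j hjR)).mp hj2))
        · exact absurd h6 h5
      · intro hcon
        left
        by_contra hno
        apply hcon
        refine ⟨hV.1, hV.2, fun j hj hj4 => ?_⟩
        by_contra hjV
        exact hno ⟨j, mem_sdiff.mpr ⟨hj, hjV⟩, (hf_par (h.two j hj)).mpr hj4⟩
    · rw [if_neg hV]
      simp only [dvd_zero, true_iff]
      exact fun hcon => hV ⟨hcon.1, hcon.2.1⟩
  · intro V hV
    unfold fam
    rw [if_neg fun h' => hV h'.2]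
  · intro i hi
    rcases mem_union.mp hi with h' | h'
    · exact h2 i h'
    · exact h.two i h'
  · intro U x
    unfold fam
    split_ifs with h'
    · show _ * ω _ = _ * ω x
      rw [hpi x]
    · rfl

end Pool.Agent.J4.H5.FP
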