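import Pool.Agent.J4.H5.FP.Jac

/-!
# The parities of the supports of a Tate character
-/

set_option linter.unusedSectionVars false
set_option autoImplicit false

namespace Pool.Agent.J4.H5.FP

open Finset Pool.Agent.H916R2 Pool.Agent.H916T Pool.Agent.H916U Pool.Agent.H916Z Pool.Agent.H916Q
open Pool.Agent.H916Y (om om_mul om_sg om_par om_ind om_nn om_vec om_inv FS mem_FS prod_FS)

/-- the supports which occur in the relation given by the Jacobi symbol modulo `d` -/
def Lead (m d : ℕ) (S : Finset ℕ) : Prop :=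
  d.primeFactors ⊆ S ∧ (∀ q ∈ S, ¬ q ∣ d → jacobiSym q d = -1) ∧
    ∀ q : ℕ, q.Prime → q ∣ m → ¬ q ∣ d → q % 4 = 1 → jacobiSym q d = -1 → q ∈ S

open scoped Classical in
theorem jac_core {m : ℕ} [NeZero m] {p : ℕ} (hp : p.Coprime m) {s : Multiset (ZMod m)}
    (hs : Rel0 p s) {d : ℕ} (hd : Squarefree d) (hdm : d ∣ m) (hd4 : d % 4 = 3)
    (hp1 : jacobiSym p d = 1) (h2 : 2 ∣ m → jacobiSym 2 d = 1) :
    Even (s.countP fun a => Lead m d (addOrderOf a).primeFactors) := by
  have hm0 : m ≠ 0 := NeZero.ne m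
  have hd0 : d ≠ 0 := by rintro rfl; omega
  have hd2 : ¬ 2 ∣ d := by omega
  have hS : d.primeFactors ⊆ m.primeFactors := Nat.primeFactors_mono hdm hm0
  have hprod : ∏ q ∈ d.primeFactors, q = d := Nat.prod_primeFactors_of_squarefree hd
  have hodd : Odd d := Nat.odd_iff.mpr (by omega)
  have hneg : jacobiSym (-1) d = -1 := by
    rw [jacobiSym.at_neg_one hodd, ZMod.χ₄_nat_three_mod_four hd4]
  set Q0 := FS m d.primeFactors with hQ0
  set R : Finset (PF m) := univ.filter (fun j : PF m => ¬ (j : ℕ) ∣ d ∧ jacobiSym (j : ℕ) d = -1)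
    with hR
  have hpr : ∀ j : PF m, (j : ℕ).Prime := fun _ => Fact.out
  have hmQ : ∀ j : PF m, j ∈ Q0 ↔ (j : ℕ) ∣ d := by
    intro j
    rw [hQ0, mem_FS, Nat.mem_primeFactors]
    exact ⟨fun h => h.2.1, fun h => ⟨hpr j, h, hd0⟩⟩
  have hmR : ∀ j : PF m, j ∈ R ↔ ¬ (j : ℕ) ∣ d ∧ jacobiSym (j : ℕ) d = -1 := by
    intro j
    rw [hR, mem_filter]
    simp
  have hPQ : ∏ i ∈ Q0, (i : ℕ) = d := by rw [hQ0, prod_FS hS, hprod]
  have hpp : ∀ i : PF m, ¬ (i : ℕ) ∣ p := by
    intro i h
    exact not_dvd_of_coprime (hpr i) hp (Nat.dvd_of_mem_primeFactors i.2) h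
  have htt : ∀ j : PF m, ¬ (j : ℕ) ∣ d → om Q0 (tt m j) = jacobiSym (j : ℕ) d := by
    intro j hj
    unfold tt
    rw [om_inv, om_vec, hPQ]
    intro i hi h
    have h3 := (Nat.prime_dvd_prime_iff_eq (hpr i) (hpr j)).mp h
    exact hj (h3 ▸ (hmQ i).mp hi)
  have hG : Gen m Q0 R (om Q0) := by
    refine ⟨?_, ?_, ?_, ?_, ?_, ?_, ?_, ?_, om_par _⟩
    · intro j hj h
      have h1 : 2 ∣ m := h ▸ Nat.dvd_of_mem_primeFactors j.2
      have h3 := ((hmR j).mp hj).2
      rw [h] at h3
      have h4 := h2 h1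
      rw [show ((2 : ℕ) : ℤ) = 2 from rfl, h4] at h3
      norm_num at h3
    · intro j hj h
      exact ((hmR j).mp hj).1 ((hmQ j).mp h)
    · have h1 : d ≠ 1 := by omega
      obtain ⟨q, hq, hqd⟩ := Nat.exists_prime_and_dvd h1
      exact ⟨⟨q, Nat.mem_primeFactors.mpr ⟨hq, hqd.trans hdm, hm0⟩⟩, (hmQ _).mpr hqd⟩
    · exact om_ind _
    · intro x
      rw [om_mul, om_sg, hPQ, hneg, neg_one_mul]
    · intro i hi x
      exact om_nn _ i hi (fun h => hd2 (h ▸ (hmQ i).mp hi)) x
    · intro j hjQ hjR x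
      have hjd : ¬ (j : ℕ) ∣ d := fun h => hjQ ((hmQ j).mpr h)
      have h1 : jacobiSym (j : ℕ) d ≠ -1 := fun h => hjR ((hmR j).mpr ⟨hjd, h⟩)
      have h3 : Int.gcd ((j : ℕ) : ℤ) d = 1 := by
        rw [Int.gcd_natCast_natCast]
        exact (hpr j).coprime_iff_not_dvd.mpr hjd
      rcases jacobiSym.eq_one_or_neg_one h3 with h4 | h4
      · rw [om_mul, htt j hjd, h4, one_mul]
      · exact absurd h4 h1
    · intro j hj x
      obtain ⟨hjd, h1⟩ := (hmR j).mp hj
      rw [om_mul, htt j hjd, h1, neg_one_mul]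
  have h5 := hG.even hp hs (fun i hi h => hd2 (h ▸ (hmQ i).mp hi)) (by
    intro x
    rw [om_mul, om_vec _ _ (fun i _ => hpp i), hPQ, hp1, one_mul])
  have h6 : s.countP (fun a => Lead m d (addOrderOf a).primeFactors) =
      s.countP fun a => Q0 ⊆ H916Q.TT m (addOrderOf a) ∧
      H916Q.TT m (addOrderOf a) ⊆ Q0 ∪ R ∧
      ∀ j ∈ R, (j : ℕ) % 4 = 1 → j ∈ H916Q.TT m (addOrderOf a) := by
    apply Multiset.countP_congr rfl
    intro a _
    have hpos : addOrderOf a ≠ 0 := (addOrderOf_pos a).ne'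
    have ham : addOrderOf a ∣ m := addOrderOf_dvd_level a
    simp only [eq_iff_iff]
    constructor
    · rintro ⟨e1, e2, e3⟩
      refine ⟨?_, ?_, ?_⟩
      · intro j hj
        rw [mem_TT]
        exact Nat.dvd_of_mem_primeFactors
          (e1 (Nat.mem_primeFactors.mpr ⟨hpr j, (hmQ j).mp hj, hd0⟩))
      · intro j hj
        rw [mem_TT] at hj
        rw [mem_union, hmQ, hmR]
        by_cases hjd : (j : ℕ) ∣ d
        · exact Or.inl hjd
        · exact Or.inr ⟨hjd, e2 j (Nat.mem_primeFactors.mpr ⟨hpr j, hj, hpos⟩) hjd⟩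
      · intro j hj hj4
        obtain ⟨hjd, h1⟩ := (hmR j).mp hj
        rw [mem_TT]
        exact Nat.dvd_of_mem_primeFactors
          (e3 j (hpr j) (Nat.dvd_of_mem_primeFactors j.2) hjd hj4 h1)
    · rintro ⟨e1, e2, e3⟩
      refine ⟨?_, ?_, ?_⟩
      · intro q hq
        have h1 : (⟨q, hS hq⟩ : PF m) ∈ Q0 := (hmQ _).mpr (Nat.dvd_of_mem_primeFactors hq)
        have h3 := e1 h1
        rw [mem_TT] at h3
        exact Nat.mem_primeFactors.mpr ⟨Nat.prime_of_mem_primeFactors hq, h3, hpos⟩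
      · intro q hq hqd
        have h1 : q ∈ m.primeFactors := Nat.primeFactors_mono ham hm0 hq
        have h3 : (⟨q, h1⟩ : PF m) ∈ H916Q.TT m (addOrderOf a) :=
          mem_TT.mpr (Nat.dvd_of_mem_primeFactors hq)
        rcases mem_union.mp (e2 h3) with h4 | h4
        · exact absurd ((hmQ _).mp h4) hqd
        · exact ((hmR _).mp h4).2
      · intro q hq hqm hqd hq4 hqJ
        have h1 : q ∈ m.primeFactors := Nat.mem_primeFactors.mpr ⟨hq, hqm, hm0⟩
        have h3 := e3 ⟨q, h1⟩ ((hmR _).mpr ⟨hqd, hqJ⟩) hq4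
        rw [mem_TT] at h3
        exact Nat.mem_primeFactors.mpr ⟨hq, h3, hpos⟩
  rw [h6]
  exact h5

/-- the Jacobi symbol modulo `d` gives a relation with smallest support `n` -/
def JacRel (p m n : ℕ) : Prop :=
  ∃ d : ℕ, d ∣ n ∧ d % 4 = 3 ∧ jacobiSym p d = 1 ∧ (4 ∣ m → jacobiSym 2 d = 1) ∧
    ∀ q : ℕ, q.Prime → Odd q → q ∣ m → ¬ q ∣ d → (q ∣ n ↔ q % 4 = 1 ∧ jacobiSym q d = -1)

open scoped Classical in
/-- from larger supports to smaller ones -/
theorem jac_step {m : ℕ} [NeZero m] {p : ℕ} (hp : p.Coprime m) {s : Multiset (ZMod m)}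
    (hs : Rel0 p s) {n d : ℕ} (hn : Squarefree n) (hn2 : ¬ 2 ∣ n) (hnm : n ∣ m) (hdn : d ∣ n)
    (hd4 : d % 4 = 3) (hp1 : jacobiSym p d = 1) (h2 : 2 ∣ m → jacobiSym 2 d = 1)
    (hq : ∀ q : ℕ, q.Prime → q ≠ 2 → q ∣ m → ¬ q ∣ d →
      (q ∣ n ↔ q % 4 = 1 ∧ jacobiSym q d = -1))
    (hup : ∀ n' : ℕ, Squarefree n' → ¬ 2 ∣ n' → n' ∣ m → n ∣ n' → n' ≠ n →
      Even (s.countP (Supp n'.primeFactors))) :
    Even (s.countP (Supp n.primeFactors)) := by
  have hm0 : m ≠ 0 := NeZero.ne m
  have hn0 : n ≠ 0 := by rintro rfl; exact hn2 (dvd_zero 2)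
  have hd0 : d ≠ 0 := by rintro rfl; omega
  have hd : Squarefree d := hn.squarefree_of_dvd hdn
  have h1 := jac_core hp hs hd (hdn.trans hnm) hd4 hp1 h2
  -- the leading support
  have hlead : Lead m d n.primeFactors := by
    refine ⟨Nat.primeFactors_mono hdn hn0, ?_, ?_⟩
    · intro q hqn hqd
      have h3 := Nat.prime_of_mem_primeFactors hqn
      have h4 := Nat.dvd_of_mem_primeFactors hqn
      exact ((hq q h3 (fun h => hn2 (h ▸ h4)) (h4.trans hnm) hqd).mp h4).2
    · intro q hqp hqm hqd hq4 hqJ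
      refine Nat.mem_primeFactors.mpr ⟨hqp, ?_, hn0⟩
      exact (hq q hqp (by rintro rfl; omega) hqm hqd).mpr ⟨hq4, hqJ⟩
  -- the other supports
  have h3 : Even ((s.filter fun a => ¬ Supp n.primeFactors a).countP
      fun a => Lead m d (addOrderOf a).primeFactors) := by
    have h4 : Even (((s.filter fun a => ¬ Supp n.primeFactors a).filter
        fun a => Lead m d (addOrderOf a).primeFactors).countP fun _ => True) := by
      refine even_of_key (fun b : ZMod m => (addOrderOf b).primeFactors) _ _ _ rfl ?_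
        (fun _ _ _ _ _ => Iff.rfl)
      intro K
      rw [Multiset.countP_filter, Multiset.countP_filter]
      by_cases hK : Lead m d K ∧ K ≠ n.primeFactors ∧ K ⊆ m.primeFactors
      · obtain ⟨hK1, hK2, hK3⟩ := hK
        have h5 : s.countP (fun a => ((addOrderOf a).primeFactors = K ∧
            Lead m d (addOrderOf a).primeFactors) ∧ ¬ Supp n.primeFactors a) =
            s.countP (Supp K) := by
          apply Multiset.countP_congr rfl
          intro a _
          unfold Supp
          simp only [eq_iff_iff]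
          exact ⟨fun h => h.1.1, fun h => ⟨⟨h, by rw [h]; exact hK1⟩, by rw [h]; exact hK2⟩⟩
        rw [h5]
        have hprK : ∀ q ∈ K, q.Prime := fun q hqK => Nat.prime_of_mem_primeFactors (hK3 hqK)
        have h2K : 2 ∉ K := by
          intro h
          have h6 : 2 ∣ m := Nat.dvd_of_mem_primeFactors (hK3 h)
          have h7 := hK1.2.1 2 h (fun h' => hn2 (h'.trans hdn))
          rw [show ((2 : ℕ) : ℤ) = 2 from rfl, h2 h6] at h7
          norm_num at h7
        have hpf : (∏ q ∈ K, q).primeFactors = K := Nat.primeFactors_prod hprK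
        have hsq : Squarefree (∏ q ∈ K, q) := by
          refine Finset.squarefree_prod_of_pairwise_isCoprime (fun q hq r hr hqr => ?_)
            (fun q hq => (hprK q hq).squarefree)
          show IsRelPrime q r
          rw [← Nat.coprime_iff_isRelPrime]
          exact (Nat.coprime_primes (hprK q hq) (hprK r hr)).mpr hqr
        have hnK : n.primeFactors ⊆ K := by
          intro q hqn
          have e1 := Nat.prime_of_mem_primeFactors hqn
          have e2 := Nat.dvd_of_mem_primeFactors hqn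
          by_cases hqd : q ∣ d
          · exact hK1.1 (Nat.mem_primeFactors.mpr ⟨e1, hqd, hd0⟩)
          · have e3 := (hq q e1 (fun h => hn2 (h ▸ e2)) (e2.trans hnm) hqd).mp e2
            exact hK1.2.2 q e1 (e2.trans hnm) hqd e3.1 e3.2
        have e1 : n ∣ ∏ q ∈ K, q := by
          rw [← Nat.prod_primeFactors_of_squarefree hn]
          exact Finset.prod_dvd_prod_of_subset _ _ _ hnK
        have e2 : (∏ q ∈ K, q) ≠ n := by
          intro h
          apply hK2
          rw [← hpf, h]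
        have e3 : (∏ q ∈ K, q) ∣ m := by
          refine dvd_trans (Finset.prod_dvd_prod_of_subset _ _ _ hK3) ?_
          exact Nat.prod_primeFactors_dvd m
        have e4 : ¬ 2 ∣ ∏ q ∈ K, q := by
          intro h
          have e5 : 2 ∈ (∏ q ∈ K, q).primeFactors :=
            Nat.mem_primeFactors.mpr ⟨Nat.prime_two, h, hsq.ne_zero⟩
          rw [hpf] at e5
          exact h2K e5
        have e5 := hup _ hsq e4 e3 e1 e2
        rw [hpf] at e5
        exact e5
      · have h5 : s.countP (fun a => ((addOrderOf a).primeFactors = K ∧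
            Lead m d (addOrderOf a).primeFactors) ∧ ¬ Supp n.primeFactors a) = 0 := by
          rw [Multiset.countP_eq_zero]
          rintro a _ ⟨⟨e1, e2⟩, e3⟩
          apply hK
          subst e1
          exact ⟨e2, e3, Nat.primeFactors_mono (addOrderOf_dvd_level a) hm0⟩
        have h6 : s.countP (fun a => ((addOrderOf a).primeFactors = K ∧
            Lead m d (addOrderOf a).primeFactors) ∧ ¬ Supp n.primeFactors a) =
            s.countP (fun a => ((addOrderOf a).primeFactors = K ∧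
            Lead m d (addOrderOf a).primeFactors) ∧ ¬ Supp n.primeFactors a) := rfl
        rw [h5]
        exact Even.zero
    rw [Multiset.countP_True, ← Multiset.countP_eq_card_filter] at h4
    exact h4
  have h4 := Multiset.countP_eq_card_filter
    (p := fun a => Lead m d (addOrderOf a).primeFactors) s
  have h5 : s.countP (fun a => Lead m d (addOrderOf a).primeFactors) =
      s.countP (Supp n.primeFactors) + (s.filter fun a => ¬ Supp n.primeFactors a).countP
        (fun a => Lead m d (addOrderOf a).primeFactors) := by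
    have h6 : s = s.filter (fun a => Supp n.primeFactors a) +
        s.filter (fun a => ¬ Supp n.primeFactors a) := (Multiset.filter_add_not _ _).symm
    conv_lhs => rw [h6, Multiset.countP_add]
    congr 1
    rw [Multiset.countP_filter]
    apply Multiset.countP_congr rfl
    intro a _
    simp only [eq_iff_iff]
    constructor
    · exact fun h => h.2
    · intro h
      have h' : (addOrderOf a).primeFactors = n.primeFactors := h
      exact ⟨h' ▸ hlead, h⟩
  rw [h5] at h1
  exact (Nat.even_add.mp h1).mpr h3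

end Pool.Agent.J4.H5.FP
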